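import Mathlib

-- part Pool.Agent.Lib.MP_057a7b_nt.Cohn
section

namespace Pool.Agent.Lib.MP_057a7b_nt
open Int

def luc (x : ℤ) : ℤ := fib (x + 1) + fib (x - 1)

lemma dvd_of_eq {a b c : ℤ} (h : a ∣ b) (e : c = b) : a ∣ c := e ▸ h

lemma exists_prime_three (n : ℕ) (h : n % 4 = 3) : ∃ l : ℕ, l.Prime ∧ l ∣ n ∧ l % 4 = 3 := by
  induction n using Nat.recOnMul with
  | zero => omega
  | one => omega
  | prime p hp => exact ⟨p, hp, dvd_rfl, h⟩
  | mul a b iha ihb =>
    by_cases ha : a % 4 = 3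
    · obtain ⟨l, h1, h2, h3⟩ := iha ha
      exact ⟨l, h1, h2.mul_right _, h3⟩
    by_cases hb : b % 4 = 3
    · obtain ⟨l, h1, h2, h3⟩ := ihb hb
      exact ⟨l, h1, h2.mul_left _, h3⟩
    exfalso
    rw [Nat.mul_mod] at h
    have h1 : a % 4 < 4 := Nat.mod_lt _ (by norm_num)
    have h2 : b % 4 < 4 := Nat.mod_lt _ (by norm_num)
    generalize a % 4 = x at *
    generalize b % 4 = y at *
    interval_cases x <;> interval_cases y <;> simp_all

lemma exists_prime_three_int (n : ℤ) (h0 : 0 ≤ n) (h : n % 4 = 3) :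
    ∃ l : ℕ, l.Prime ∧ (l : ℤ) ∣ n ∧ l % 4 = 3 := by
  obtain ⟨m, rfl⟩ := Int.eq_ofNat_of_zero_le h0
  obtain ⟨l, h1, h2, h3⟩ := exists_prime_three m (by omega)
  exact ⟨l, h1, by exact_mod_cast h2, h3⟩

lemma fib_shift (H x : ℤ) (hH : Even H) : fib (x + 2 * H) + fib x = luc H * fib (x + H) := by
  have h1 := fib_add (x + H) H
  have h2 := fib_add (x + H) (-H)
  have h3 : fib (-H) = - fib H := by rw [fib_neg, if_pos hH]
  have h4 : fib (-H + 1) = fib (H - 1) := by
    have : -H + 1 = -(H - 1) := by ring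
    rw [this, fib_neg, if_neg]
    rw [Int.not_even_iff_odd]
    exact hH.sub_odd odd_one
  rw [show x + H + H = x + 2 * H by ring] at h1
  rw [show x + H + -H = x by ring, h3, h4] at h2
  rw [luc]
  linear_combination h1 + h2

lemma luc_two_mul (H : ℤ) (hH : Even H) : luc (2 * H) = luc H ^ 2 - 2 := by
  have h1 := fib_shift H 1 hH
  have h2 := fib_shift H (-1) hH
  rw [show (1 : ℤ) + 2 * H = 2 * H + 1 by ring, show (1 : ℤ) + H = H + 1 by ring, fib_one] at h1
  rw [show (-1 : ℤ) + 2 * H = 2 * H - 1 by ring, show (-1 : ℤ) + H = H - 1 by ring,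
    fib_neg_one] at h2
  have h3 : luc H = fib (H + 1) + fib (H - 1) := rfl
  have h4 : luc (2 * H) = fib (2 * H + 1) + fib (2 * H - 1) := rfl
  rw [h4]
  linear_combination h1 + h2 - luc H * h3

lemma luc_pow (t : ℕ) : 3 ≤ luc (2 ^ (t + 1)) ∧ luc (2 ^ (t + 1)) % 4 = 3 := by
  induction t with
  | zero => decide
  | succ t ih =>
    have he : Even ((2 : ℤ) ^ (t + 1)) := by
      rw [pow_succ]; exact even_two.mul_left _
    rw [show (2 : ℤ) ^ (t + 1 + 1) = 2 * 2 ^ (t + 1) by ring, luc_two_mul _ he]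
    obtain ⟨h1, h2⟩ := ih
    generalize luc (2 ^ (t + 1)) = L at *
    refine ⟨by nlinarith, ?_⟩
    obtain ⟨c, rfl⟩ : ∃ c, L = 4 * c + 3 := ⟨L / 4, by omega⟩
    have : (4 * c + 3) ^ 2 - 2 = 4 * (4 * c ^ 2 + 6 * c + 1) + 3 := by ring
    rw [this]
    omega

lemma fib_two_mul_luc (H : ℤ) : fib (2 * H) = fib H * luc H := by
  have h := fib_add_two (H - 1)
  rw [show H - 1 + 2 = H + 1 by ring, show H - 1 + 1 = H by ring] at h
  rw [fib_two_mul, luc]
  linear_combination fib H * h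

lemma coprime_succ (x : ℤ) : IsCoprime (fib x) (fib (x + 1)) := by
  rw [Int.isCoprime_iff_gcd_eq_one, gcd_fib]
  have : Int.gcd x (x + 1) = 1 := by
    rw [← Int.isCoprime_iff_gcd_eq_one]
    exact ⟨-1, 1, by ring⟩
  rw [this]; rfl

lemma prime_two {l : ℕ} (hl : l.Prime) (h3 : l % 4 = 3) {a : ℤ} (h : (l : ℤ) ∣ 2 * a) :
    (l : ℤ) ∣ a := by
  rcases (Int.Prime.dvd_mul' hl h) with h | h
  · have h' : l ∣ 2 := by exact_mod_cast h
    have := Nat.le_of_dvd (by norm_num) h'
    omega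
  · exact_mod_cast h

lemma not_dvd_coprime {l : ℕ} (hl : l.Prime) {a b : ℤ} (h : IsCoprime a b) (ha : (l : ℤ) ∣ a)
    (hb : (l : ℤ) ∣ b) : False := by
  have := h.isUnit_of_dvd' ha hb
  rw [Int.isUnit_iff] at this
  have h2 := hl.two_le
  omega

lemma sq_add_sq {l : ℕ} (hl : l.Prime) (h3 : l % 4 = 3) {a b : ℤ} (h : (l : ℤ) ∣ a ^ 2 + b ^ 2) :
    (l : ℤ) ∣ a := by
  haveI := Fact.mk hl
  by_contra ha
  have ha' : (a : ZMod l) ≠ 0 := by rwa [Ne, ZMod.intCast_zmod_eq_zero_iff_dvd]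
  have h0 : ((a ^ 2 + b ^ 2 : ℤ) : ZMod l) = 0 := by rwa [ZMod.intCast_zmod_eq_zero_iff_dvd]
  push_cast at h0
  refine ZMod.mod_four_ne_three_of_sq_eq_neg_sq' (p := l) (x := (b : ZMod l)) ha' ?_ h3
  linear_combination h0

/-- A prime `3 mod 4` whose rank of apparition is `2 ^ (t + 2)`. -/
lemma exists_rank (t : ℕ) : ∃ l : ℕ, l.Prime ∧ l % 4 = 3 ∧ (l : ℤ) ∣ luc (2 ^ (t + 1)) ∧
    ∀ x : ℤ, (l : ℤ) ∣ fib x ↔ 2 * 2 ^ (t + 1) ∣ x := by
  obtain ⟨h1, h2⟩ := luc_pow t
  obtain ⟨l, hl, hd, h3⟩ := exists_prime_three_int _ (by omega) h2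
  refine ⟨l, hl, h3, hd, fun x => ⟨fun hx => ?_, fun hx => ?_⟩⟩
  · have hH : ¬ (l : ℤ) ∣ fib (2 ^ (t + 1)) := by
      intro hf
      have h := fib_add_two ((2 : ℤ) ^ (t + 1) - 1)
      rw [show (2 : ℤ) ^ (t + 1) - 1 + 2 = 2 ^ (t + 1) + 1 by ring,
        show (2 : ℤ) ^ (t + 1) - 1 + 1 = 2 ^ (t + 1) by ring] at h
      have : 2 * fib (2 ^ (t + 1) + 1) = luc (2 ^ (t + 1)) + fib (2 ^ (t + 1)) := by
        rw [luc]; linear_combination h
      exact not_dvd_coprime hl (coprime_succ _) hf (prime_two hl h3 (this ▸ dvd_add hd hf))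
    have h2H : (l : ℤ) ∣ fib (2 * 2 ^ (t + 1)) := by
      rw [fib_two_mul_luc]; exact hd.mul_left _
    have hg : (l : ℤ) ∣ fib (Int.gcd x (2 * 2 ^ (t + 1)) : ℕ) := by
      rw [fib_natCast, ← gcd_fib]
      exact Int.dvd_coe_gcd hx h2H
    have hdv : Int.gcd x (2 * 2 ^ (t + 1)) ∣ 2 ^ (t + 2) := by
      have := Int.gcd_dvd_right x (2 * 2 ^ (t + 1))
      rw [show (2 : ℤ) * 2 ^ (t + 1) = ((2 ^ (t + 2) : ℕ) : ℤ) by push_cast; ring] at this ⊢
      exact_mod_cast this
    obtain ⟨s, hs, hs'⟩ := (Nat.dvd_prime_pow Nat.prime_two).mp hdv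
    rcases Nat.lt_or_ge s (t + 2) with hlt | hge
    · exfalso
      apply hH
      refine hg.trans (fib_dvd _ _ ?_)
      rw [hs']
      push_cast
      exact pow_dvd_pow _ (by omega)
    · have : s = t + 2 := by omega
      subst this
      have := Int.gcd_dvd_left x (2 * 2 ^ (t + 1))
      rw [hs'] at this
      push_cast at this
      rwa [show (2 : ℤ) * 2 ^ (t + 1) = 2 ^ (t + 2) by ring]
  · refine Dvd.dvd.trans ?_ (fib_dvd _ _ hx)
    rw [fib_two_mul_luc]; exact hd.mul_left _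

lemma fib_odd_shift (H c x : ℤ) (hH : Even H) (hc : Odd c) :
    luc H ∣ fib (x + 2 * H * c) + fib x := by
  have step : ∀ y : ℤ, luc H ∣ fib (y + 2 * H) + fib y := fun y => by
    rw [fib_shift _ _ hH]; exact dvd_mul_right _ _
  have step2 : ∀ y : ℤ, luc H ∣ fib (y + 4 * H) - fib y := fun y => by
    have h1 := step y
    have h2 := step (y + 2 * H)
    rw [show y + 2 * H + 2 * H = y + 4 * H by ring] at h2
    have := dvd_sub h2 h1
    refine dvd_of_eq this ?_
    ring
  have all : ∀ (j y : ℤ), luc H ∣ fib (y + 4 * H * j) - fib y := by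
    intro j
    induction j using Int.induction_on with
    | zero => simp
    | succ j ih =>
      intro y
      have h1 := ih y
      have h2 := step2 (y + 4 * H * j)
      rw [show y + 4 * H * j + 4 * H = y + 4 * H * (j + 1) by ring] at h2
      have := dvd_add h1 h2
      refine dvd_of_eq this ?_
      ring
    | pred j ih =>
      intro y
      have h1 := ih y
      have h2 := step2 (y + 4 * H * (-(j : ℤ) - 1))
      rw [show y + 4 * H * (-(j : ℤ) - 1) + 4 * H = y + 4 * H * (-(j : ℤ)) by ring] at h2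
      have := dvd_sub h1 h2
      refine dvd_of_eq this ?_
      ring
  obtain ⟨j, rfl⟩ := hc
  have h1 := all j (x + 2 * H)
  have h2 := step x
  rw [show x + 2 * H + 4 * H * j = x + 2 * H * (2 * j + 1) by ring] at h1
  have := dvd_add h1 h2
  refine dvd_of_eq this ?_
  ring

/-- Two parametrised solutions with the same `g` and `k` and indices congruent mod 4 coincide. -/
theorem cohn (g k m m' p q p' q' i : ℤ) (hi : m = m' + 4 * i) (hi0 : i ≠ 0)
    (hpq : IsCoprime p q) (hpq' : IsCoprime p' q')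
    (h1 : g * (p * q) = fib m) (h2 : g * (p ^ 2 + q ^ 2) = 4 * fib (m + k))
    (h1' : g * (p' * q') = fib m') (h2' : g * (p' ^ 2 + q' ^ 2) = 4 * fib (m' + k)) : False := by
  obtain ⟨t, c, hc, hic⟩ : ∃ (t : ℕ) (c : ℤ), Odd c ∧ i = 2 ^ t * c := by
    obtain ⟨t, c, hc, h⟩ := Nat.exists_eq_two_pow_mul_odd (n := i.natAbs) (by simpa using hi0)
    rcases Int.natAbs_eq i with h' | h'
    · exact ⟨t, c, by exact_mod_cast hc, by rw [h', h]; push_cast; ring⟩
    · exact ⟨t, -c, by simpa using (by exact_mod_cast hc : Odd (c : ℤ)),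
        by rw [h', h]; push_cast; ring⟩
  have he : Even ((2 : ℤ) ^ (t + 1)) := by
    rw [pow_succ]; exact even_two.mul_left _
  have hm : m = m' + 2 * 2 ^ (t + 1) * c := by rw [hi, hic]; ring
  obtain ⟨l, hl, h3, hd, hr⟩ := exists_rank t
  have hlp : Prime (l : ℤ) := Nat.prime_iff_prime_int.mp hl
  by_cases hg : (l : ℤ) ∣ g
  · obtain ⟨l', hl', h3', -, hr'⟩ := exists_rank (t + 1)
    have hlp' : Prime (l' : ℤ) := Nat.prime_iff_prime_int.mp hl'
    have four : ∀ a : ℤ, (l : ℤ) ∣ 4 * a → (l : ℤ) ∣ a := fun a ha =>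
      prime_two hl h3 (prime_two hl h3 (by rwa [show 2 * (2 * a) = 4 * a by ring]))
    obtain ⟨a, ha⟩ := (hr m').mp (h1' ▸ hg.mul_right _)
    obtain ⟨b, hb⟩ := (hr (m' + k)).mp (four _ (h2' ▸ hg.mul_right _))
    have hne : (2 : ℤ) ^ (t + 1) ≠ 0 := by positivity
    have key : ∀ e : ℤ, (l' : ℤ) ∣ fib (2 * 2 ^ (t + 1) * e) ↔ Even e := by
      intro e
      rw [hr', show (2 : ℤ) * 2 ^ (t + 1 + 1) = 2 * 2 ^ (t + 1) * 2 by ring,
        mul_dvd_mul_iff_left (by positivity), even_iff_two_dvd]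
    have hma : m = 2 * 2 ^ (t + 1) * (a + c) := by rw [hm, ha]; ring
    have hmb : m + k = 2 * 2 ^ (t + 1) * (b + c) := by rw [hm]; linear_combination hb
    have hg' : ¬ (l' : ℤ) ∣ g := by
      intro h
      have e1 : Even a := (key a).mp (ha ▸ h1' ▸ h.mul_right _)
      have e2 : Even (a + c) := (key _).mp (hma ▸ h1 ▸ h.mul_right _)
      rw [Int.even_add] at e2
      exact (Int.not_even_iff_odd.mpr hc) (e2.mp e1)
    have fin : ∀ u v z : ℤ, IsCoprime u v → g * (u ^ 2 + v ^ 2) = 4 * fib z →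
        (l' : ℤ) ∣ fib z → False := by
      intro u v z huv hz hl2
      have : (l' : ℤ) ∣ g * (u ^ 2 + v ^ 2) := hz ▸ hl2.mul_left _
      rcases hlp'.dvd_or_dvd this with h | h
      · exact hg' h
      · exact not_dvd_coprime hl' huv (sq_add_sq hl' h3' h)
          (sq_add_sq hl' h3' (by rwa [add_comm] at h))
    rcases Int.even_or_odd b with hb' | hb'
    · exact fin p' q' _ hpq' h2' (hb ▸ (key b).mpr hb')
    · exact fin p q _ hpq h2 (hmb ▸ (key _).mpr (hb'.add_odd hc))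
  · have e1 : (l : ℤ) ∣ fib m + fib m' := by
      rw [hm]; exact hd.trans (fib_odd_shift _ _ _ he hc)
    have e2 : (l : ℤ) ∣ fib (m + k) + fib (m' + k) := by
      rw [show m + k = m' + k + 2 * 2 ^ (t + 1) * c by rw [hm]; ring]
      exact hd.trans (fib_odd_shift _ _ _ he hc)
    have a1 : (l : ℤ) ∣ g * ((p + q) ^ 2 + (p' + q') ^ 2) := by
      have := dvd_add (e2.mul_left 4) (e1.mul_left 2)
      refine dvd_of_eq this ?_
      linear_combination h2 + h2' + 2 * h1 + 2 * h1'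
    have a2 : (l : ℤ) ∣ g * ((p - q) ^ 2 + (p' - q') ^ 2) := by
      have := dvd_sub (e2.mul_left 4) (e1.mul_left 2)
      refine dvd_of_eq this ?_
      linear_combination h2 + h2' - 2 * h1 - 2 * h1'
    have b1 := sq_add_sq hl h3 ((hlp.dvd_or_dvd a1).resolve_left hg)
    have b2 := sq_add_sq hl h3 ((hlp.dvd_or_dvd a2).resolve_left hg)
    refine not_dvd_coprime hl hpq (prime_two hl h3 ?_) (prime_two hl h3 ?_)
    · have := dvd_add b1 b2
      refine dvd_of_eq this ?_
      ring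
    · have := dvd_sub b1 b2
      refine dvd_of_eq this ?_
      ring

end Pool.Agent.Lib.MP_057a7b_nt
end

-- part Pool.Agent.Lib.MP_057a7b_nt.Descent
section

namespace Pool.Agent.Lib.MP_057a7b_nt
open Int

abbrev R := QuadraticAlgebra ℤ 1 1

/-- Evaluation of `a + b x` at a real root of `x ^ 2 = x + 1`. -/
def ev (r : ℝ) (hr : r ^ 2 = r + 1) : R →+* ℝ where
  toFun z := z.re + z.im * r
  map_one' := by simp [QuadraticAlgebra.re_one, QuadraticAlgebra.im_one]
  map_zero' := by simp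
  map_add' z w := by simp; ring
  map_mul' z w := by simp; linear_combination (-(z.im : ℝ) * w.im) * hr

lemma ev_apply (r : ℝ) (hr : r ^ 2 = r + 1) (z : R) : ev r hr z = z.re + z.im * r := rfl

def Inv (C : ℤ) (V N s t : R) : Prop :=
  C ∣ s.im ∧ C ∣ t.im ∧ 4 ∣ s.im ∧ 4 ∣ t.im ∧ s ^ 2 - V * s * t + t ^ 2 = N ∧ IsCoprime s t

lemma Inv.step {C : ℤ} {V N s t : R} (hC : C ∣ V.im) (h4 : 4 ∣ V.im) (h : Inv C V N s t) :
    Inv C V N t (V * t - s) := by
  obtain ⟨h1, h2, h3, h5, h6, h7⟩ := h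
  have key : ∀ d : ℤ, d ∣ V.im → d ∣ s.im → d ∣ t.im → d ∣ (V * t - s).im := by
    intro d a b c
    simp only [QuadraticAlgebra.im_sub, QuadraticAlgebra.im_mul]
    exact dvd_sub (dvd_add (dvd_add (c.mul_left _) (a.mul_right _)) (c.mul_left _)) b
  refine ⟨h2, key _ hC h1 h2, h5, key _ h4 h3 h5, by linear_combination h6, ?_⟩
  obtain ⟨u, v, huv⟩ := h7
  exact ⟨u * V + v, -u, by linear_combination huv⟩

lemma descent (f : R →+* ℝ) {C : ℤ} {V N : R} (hC : C ∣ V.im) (h4 : 4 ∣ V.im) (w : ℝ)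
    (hw : 2 ≤ w) (hV : f V = 2 * w) (M : ℕ) :
    ∀ s t : R, Inv C V N s t → 0 < f t → w * f t < f s → 4 * f s ^ 2 < |f N| * 4 ^ M →
      ∃ s' t' : R, Inv C V N s' t' ∧ (f s' * f t' ≤ 0 ∨
        (0 < f s' * f t' ∧ w * (f s' ^ 2 + f t' ^ 2) ≤ (w ^ 2 + 1) * (f s' * f t'))) := by
  induction M with
  | zero =>
    intro s t h ht hs hM
    exfalso
    have e := congrArg f h.2.2.2.2.1
    simp only [map_add, map_sub, map_mul, map_pow, hV] at e
    have h1 : f t < f s := by nlinarith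
    have h2 : |f N| ≤ 4 * f s ^ 2 := by
      rw [← e, abs_le]
      have h3 : 0 < w * f t := by positivity
      have h5 : 0 < f s * (w * f t) := mul_pos (by linarith) h3
      constructor <;> nlinarith
    simp only [pow_zero, mul_one] at hM
    linarith
  | succ M ih =>
    intro s t h ht hs hM
    have h' := h.step hC h4
    have e : f (V * t - s) = 2 * w * f t - f s := by simp [hV]
    by_cases h1 : f (V * t - s) ≤ 0
    · exact ⟨_, _, h', Or.inl (mul_nonpos_of_nonneg_of_nonpos ht.le h1)⟩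
    push Not at h1
    by_cases h2 : w * f (V * t - s) < f t
    · refine ih _ _ h' h1 h2 ?_
      have h3 : 2 * f t < f s := by nlinarith
      rw [pow_succ (4 : ℝ) M] at hM
      nlinarith
    push Not at h2
    refine ⟨_, _, h', Or.inr ⟨mul_pos ht h1, ?_⟩⟩
    have h3 : f (V * t - s) ≤ w * f t := by rw [e]; linarith
    generalize f (V * t - s) = y at *
    nlinarith [mul_nonneg (sub_nonneg.mpr h2) (sub_nonneg.mpr h3)]

lemma rank_one (a b c d : ℤ) (h : a * d = b * c) :
    ∃ p q x y : ℤ, IsCoprime p q ∧ a = p * x ∧ b = p * y ∧ c = q * x ∧ d = q * y := by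
  have main : ∀ a b c d : ℤ, a * d = b * c → (a ≠ 0 ∨ c ≠ 0) →
      ∃ p q x y : ℤ, IsCoprime p q ∧ a = p * x ∧ b = p * y ∧ c = q * x ∧ d = q * y := by
    intro a b c d h h0
    have hg : 0 < Int.gcd a c := Int.gcd_pos_iff.mpr h0
    obtain ⟨g, p, q, hg0, hpq, ha, hc⟩ := Int.exists_gcd_one' hg
    have hc' := Int.isCoprime_iff_gcd_eq_one.mpr hpq
    obtain ⟨u, v, huv⟩ := hc'
    have hg1 : (g : ℤ) ≠ 0 := by exact_mod_cast hg0.ne'
    have e : p * d = b * q := by
      apply mul_left_cancel₀ hg1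
      rw [ha, hc] at h
      linear_combination h
    refine ⟨p, q, g, u * b + v * d, ⟨u, v, huv⟩, ha, ?_, hc, ?_⟩
    · linear_combination (-b) * huv - v * e
    · linear_combination (-d) * huv + u * e
  by_cases h0 : a ≠ 0 ∨ c ≠ 0
  · exact main a b c d h h0
  by_cases h1 : b ≠ 0 ∨ d ≠ 0
  · obtain ⟨p, q, x, y, h1, h2, h3, h4, h5⟩ := main b a d c (by linear_combination -h) h1
    exact ⟨p, q, y, x, h1, h3, h2, h5, h4⟩
  push Not at h0 h1
  exact ⟨1, 0, 0, 0, isCoprime_one_left, by simp [h0], by simp [h1], by simp [h0], by simp [h1]⟩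

lemma unit_class (n : ℕ) : ∀ a b : ℤ, b.natAbs ≤ n →
    (a ^ 2 + a * b - b ^ 2 = 1 ∨ a ^ 2 + a * b - b ^ 2 = -1) →
    ∃ i e : ℤ, (e = 1 ∨ e = -1) ∧ a = e * fib (i - 1) ∧ b = e * fib i := by
  induction n with
  | zero =>
    intro a b hb h
    have hb0 : b = 0 := by omega
    subst hb0
    have h1 : a ^ 2 = 1 := by
      rcases h with h | h
      · linarith
      · nlinarith [sq_nonneg a]
    refine ⟨0, a, ?_, by simp, by simp⟩
    exact Int.eq_one_or_neg_one_of_mul_eq_one (v := a) (by linear_combination h1)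
  | succ n ih =>
    intro a b hb h
    by_cases h1 : a.natAbs ≤ n
    · obtain ⟨i, e, he, h2, h3⟩ := ih (b - a) a h1 (by
        rcases h with h | h
        · right; linear_combination -h
        · left; linear_combination -h)
      refine ⟨i + 1, e, he, by rw [add_sub_cancel_right]; exact h3, ?_⟩
      have := fib_add_two (i - 1)
      rw [show i - 1 + 2 = i + 1 by ring, show i - 1 + 1 = i by ring] at this
      rw [this]
      linear_combination h2 + h3
    by_cases h2 : (a + b).natAbs ≤ n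
    · obtain ⟨i, e, he, h3, h4⟩ := ih b (a + b) h2 (by
        rcases h with h | h
        · right; linear_combination -h
        · left; linear_combination -h)
      refine ⟨i - 1, e, he, ?_, h3⟩
      have := fib_add_two (i - 1 - 1)
      rw [show i - 1 - 1 + 2 = i by ring, show i - 1 - 1 + 1 = i - 1 by ring] at this
      linear_combination h4 - h3 + e * this
    by_cases h3 : b.natAbs ≤ n
    · exact ih a b h3 h
    have hb1 : b = 1 ∨ b = -1 := by
      have c1 : (n + 1 ≤ a ∨ a ≤ -(n + 1)) := by omega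
      have c2 : (n + 1 ≤ a + b ∨ a + b ≤ -(n + 1)) := by omega
      have c3 : b = n + 1 ∨ b = -(n + 1) := by omega
      have hn : (0 : ℤ) ≤ n := by positivity
      have c4 : (n : ℤ) = 0 := by
        by_contra hn0
        have hn1 : (1 : ℤ) ≤ n := by omega
        rcases c3 with c3 | c3 <;> rcases c1 with c1 | c1 <;> rcases c2 with c2 | c2 <;>
          rcases h with h | h <;> first | omega | nlinarith
      omega
    have hn : n = 0 := by omega
    subst hn
    rcases hb1 with rfl | rfl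
    · have : a = 1 ∨ a = -2 := by
        have : -2 ≤ a := by rcases h with h | h <;> nlinarith
        have : a ≤ 1 := by rcases h with h | h <;> nlinarith
        omega
      rcases this with rfl | rfl
      · exact ⟨2, 1, Or.inl rfl, by decide, by decide⟩
      · exact ⟨-2, -1, Or.inr rfl, by decide, by decide⟩
    · have : a = -1 ∨ a = 2 := by
        have : -1 ≤ a := by rcases h with h | h <;> nlinarith
        have : a ≤ 2 := by rcases h with h | h <;> nlinarith
        omega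
      rcases this with rfl | rfl
      · exact ⟨2, -1, Or.inr rfl, by decide, by decide⟩
      · exact ⟨-2, 1, Or.inl rfl, by decide, by decide⟩

lemma even_of_four_dvd {i : ℤ} (h : 4 ∣ fib i) : Even i := by
  by_contra hi
  obtain ⟨j, rfl⟩ := Int.not_even_iff_odd.mp hi
  rw [fib_two_mul_add_one] at h
  have hc := coprime_succ j
  generalize fib j = x at *
  generalize fib (j + 1) = y at *
  have : 2 ∣ x ∧ 2 ∣ y := by
    obtain ⟨c, hc⟩ := h
    rcases Int.even_or_odd' x with ⟨a, rfl | rfl⟩ <;> rcases Int.even_or_odd' y with ⟨b, rfl | rfl⟩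
    · exact ⟨dvd_mul_right _ _, dvd_mul_right _ _⟩
    · exfalso
      have : 4 * (b ^ 2 + b + a ^ 2 - c) + 1 = 0 := by linear_combination hc
      omega
    · exfalso
      have : 4 * (b ^ 2 + a + a ^ 2 - c) + 1 = 0 := by linear_combination hc
      omega
    · exfalso
      have : 4 * (b ^ 2 + b + a + a ^ 2 - c) + 2 = 0 := by linear_combination hc
      omega
  exact not_dvd_coprime Nat.prime_two hc this.1 this.2

end Pool.Agent.Lib.MP_057a7b_nt
end

-- part Pool.Agent.Lib.MP_057a7b_nt.Main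
section

namespace Pool.Agent.Lib.MP_057a7b_nt
open Int Real

lemma binet (x y : ℤ) :
    (fib (x + y) : ℝ) = goldenRatio ^ y * fib x + goldenConj ^ x * fib y := by
  have h5 : √5 ≠ 0 := by positivity
  rw [coe_intFib_eq, coe_intFib_eq, coe_intFib_eq, zpow_add₀ goldenRatio_ne_zero,
    zpow_add₀ goldenConj_ne_zero]
  generalize goldenRatio ^ x = a
  generalize goldenRatio ^ y = b
  generalize goldenConj ^ x = c
  generalize goldenConj ^ y = d
  field_simp
  ring

lemma zpow_phi (i : ℤ) : goldenRatio ^ i = (fib (i - 1) : ℝ) + fib i * goldenRatio := by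
  have h := binet (-1) i
  rw [zpow_neg_one, inv_goldenConj, fib_neg_one, show -1 + i = i - 1 by ring] at h
  push_cast at h
  linear_combination -h

lemma zpow_psi (i : ℤ) : goldenConj ^ i = (fib (i - 1) : ℝ) + fib i * goldenConj := by
  have h := binet i (-1)
  rw [zpow_neg_one, inv_goldenRatio, fib_neg_one, show i + -1 = i - 1 by ring] at h
  push_cast at h
  linear_combination -h

lemma irr (a b : ℤ) (h : (a : ℝ) = b * goldenRatio) : b = 0 := by
  by_contra hb
  have := goldenRatio_irrational.intCast_mul hb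
  rw [← h] at this
  exact (Int.not_irrational a) this

lemma mul_sq (i : ℤ) : (goldenRatio ^ i * goldenConj ^ i) ^ 2 = 1 := by
  rw [← mul_zpow, goldenRatio_mul_goldenConj, ← zpow_natCast, ← zpow_mul, mul_comm, zpow_mul]
  simp

lemma phi_lb : (1.6 : ℝ) < goldenRatio := by
  nlinarith [goldenRatio_sq, goldenRatio_pos, one_lt_goldenRatio]

lemma psi_pow_lb (m : ℕ) (hm : 1 ≤ m) : (-0.65 : ℝ) ≤ goldenConj ^ m := by
  have h1 : |goldenConj| ≤ 0.65 := by
    rw [abs_le]
    constructor <;> nlinarith [goldenConj_sq, goldenConj_neg, neg_one_lt_goldenConj]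
  have h2 : |goldenConj ^ m| ≤ 0.65 := by
    rw [abs_pow]
    calc |goldenConj| ^ m ≤ |goldenConj| ^ 1 :=
          pow_le_pow_of_le_one (abs_nonneg _) (by linarith) hm
      _ ≤ 0.65 := by simpa using h1
  linarith [(abs_le.mp h2).1]

/-- The analytic heart: the determinant is small. -/
lemma det_small (w w' C A B s t s' t' : ℝ) (hw : 5 ≤ w) (hww : (w * w') ^ 2 = 16) (hC : 0 < C)
    (hB : 0 < B) (hAB : (A * B) ^ 2 = 1)
    (h1 : s ^ 2 - 2 * w * s * t + t ^ 2 = C * A) (h2 : s' ^ 2 - 2 * w' * s' * t' + t' ^ 2 = C * B)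
    (h : s * t ≤ 0 ∨ (0 < s * t ∧ w * (s ^ 2 + t ^ 2) ≤ (w ^ 2 + 1) * (s * t))) :
    (s * t' - t * s') ^ 2 < 5 * C ^ 2 := by
  have hu : w * w' = 4 ∨ w * w' = -4 := by
    have : (w * w' - 4) * (w * w' + 4) = 0 := by linear_combination hww
    rcases mul_eq_zero.mp this with h | h
    · left; linarith
    · right; linarith
  have hw2 : w' ^ 2 ≤ 16 / 25 := by
    have : 25 ≤ w ^ 2 := by nlinarith
    nlinarith [sq_nonneg w']
  have hw3 : w' ≤ 1 := by nlinarith
  have hAB' : A * B = 1 ∨ A * B = -1 := by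
    have : (A * B - 1) * (A * B + 1) = 0 := by linear_combination hAB
    rcases mul_eq_zero.mp this with h | h
    · left; linarith
    · right; linarith
  have cs : (1 - w' ^ 2) * (s * t' - t * s') ^ 2 ≤
      (s ^ 2 - 2 * w' * s * t + t ^ 2) * (C * B) := by
    rw [← h2]
    nlinarith [sq_nonneg (s * s' - w' * (s * t' + t * s') + t * t')]
  have hG : (s ^ 2 - 2 * w' * s * t + t ^ 2) * (C * B) ≤ 3 / 2 * C ^ 2 := by
    have hCB : 0 < C * B := mul_pos hC hB
    have hC2 : 0 < C ^ 2 := by positivity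
    rcases h with h | ⟨h, h'⟩
    · have e : s ^ 2 - 2 * w' * s * t + t ^ 2 ≤ C * A := by
        rw [← h1]; nlinarith [mul_nonneg (show 0 ≤ w - w' by linarith) (neg_nonneg.mpr h)]
      have e2 := mul_le_mul_of_nonneg_right e hCB.le
      have e3 : C * A * (C * B) = C ^ 2 * (A * B) := by ring
      rcases hAB' with h | h <;> rw [h] at e3 <;> linarith
    · have e : s ^ 2 - 2 * w' * s * t + t ^ 2 ≤ -(3 / 2) * (C * A) := by
        rw [← h1]
        have hw0 : 0 < w := by linarith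
        have e1 : w * (5 / 2 * (s ^ 2 + t ^ 2)) ≤ w * ((3 * w + 2 * w') * (s * t)) := by
          have : 5 / 2 * (w ^ 2 + 1) ≤ 3 * w ^ 2 + 2 * (w * w') := by
            rcases hu with hu | hu <;> rw [hu] <;> nlinarith
          nlinarith [mul_le_mul_of_nonneg_right this h.le]
        have e2 := le_of_mul_le_mul_left e1 hw0
        linarith
      have e2 := mul_le_mul_of_nonneg_right e hCB.le
      have e3 : -(3 / 2) * (C * A) * (C * B) = -(3 / 2) * C ^ 2 * (A * B) := by ring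
      rcases hAB' with h | h <;> rw [h] at e3 <;> linarith
  have hC2 : 0 < C ^ 2 := by positivity
  nlinarith [sq_nonneg (s * t' - t * s')]

theorem big_k (k m : ℕ) (hk : 2 ≤ k) (hm : 1 ≤ m) (g p q : ℤ) (hg : 0 < g) (hq : 0 < q)
    (hpq : q ≤ p) (hc : IsCoprime p q) (h1 : g * (p * q) = fib m)
    (h2 : g * (p ^ 2 + q ^ 2) = 4 * fib (m + k)) : False := by
  obtain ⟨C, hC⟩ : g ∣ 4 * fib k := by
    have a1 : g ∣ fib m := ⟨_, h1.symm⟩
    have a2 : g ∣ 4 * fib (m + k) := ⟨_, h2.symm⟩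
    have a3 : IsCoprime g (fib (m - 1)) := by
      have := coprime_succ ((m : ℤ) - 1)
      rw [sub_add_cancel] at this
      exact this.symm.of_isCoprime_of_dvd_left a1
    refine a3.dvd_of_dvd_mul_left ?_
    have := dvd_sub a2 (a1.mul_right (4 * fib (k + 1)))
    refine dvd_of_eq this ?_
    rw [fib_add]; ring
  have hFk : (1 : ℤ) ≤ fib k := by
    rw [fib_natCast]; exact_mod_cast Nat.fib_pos.mpr (by omega)
  have hFm : (1 : ℤ) ≤ fib m := by
    rw [fib_natCast]; exact_mod_cast Nat.fib_pos.mpr (by omega)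
  have hC0 : 0 < C := by nlinarith
  set f := ev goldenRatio goldenRatio_sq with hf
  set f' := ev goldenConj goldenConj_sq with hf'
  set V : R := ⟨4 * fib (k - 1), 4 * fib k⟩ with hV
  set w : ℝ := 2 * goldenRatio ^ (k : ℤ) with hw
  set w' : ℝ := 2 * goldenConj ^ (k : ℤ) with hw'
  have hfV : f V = 2 * w := by
    rw [hf, ev_apply, hw, zpow_phi]; simp only [hV]; push_cast; ring
  have hfV' : f' V = 2 * w' := by
    rw [hf', ev_apply, hw', zpow_psi]; simp only [hV]; push_cast; ring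
  have hw5 : 5 ≤ w := by
    rw [hw, zpow_natCast]
    have : goldenRatio ^ 2 ≤ goldenRatio ^ k := pow_le_pow_right₀ one_lt_goldenRatio.le hk
    nlinarith [phi_lb]
  have hww : (w * w') ^ 2 = 16 := by
    rw [hw, hw']; linear_combination 16 * mul_sq k
  have gR : (0 : ℝ) < g := by exact_mod_cast hg
  have qR : (0 : ℝ) < q := by exact_mod_cast hq
  have pqR : (q : ℝ) ≤ p := by exact_mod_cast hpq
  have CR : (0 : ℝ) < C := by exact_mod_cast hC0
  have h1R : (g : ℝ) * (p * q) = fib m := by exact_mod_cast h1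
  have h2R : (g : ℝ) * (p ^ 2 + q ^ 2) = 4 * fib (m + k) := by exact_mod_cast h2
  have hCR : 4 * (fib k : ℝ) = g * C := by exact_mod_cast hC
  set N : R := (p : R) ^ 2 - V * p * q + (q : R) ^ 2 with hN
  have n1 : (p : ℝ) ^ 2 - 2 * w * p * q + q ^ 2 = C * goldenConj ^ (m : ℤ) := by
    apply mul_left_cancel₀ gR.ne'
    rw [hw]
    linear_combination h2R - 4 * goldenRatio ^ (k : ℤ) * h1R + 4 * binet m k +
      goldenConj ^ (m : ℤ) * hCR
  have n2 : (p : ℝ) ^ 2 - 2 * w' * p * q + q ^ 2 = C * goldenRatio ^ (m : ℤ) := by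
    apply mul_left_cancel₀ gR.ne'
    have := binet k m
    rw [add_comm] at this
    rw [hw']
    linear_combination h2R - 4 * goldenConj ^ (k : ℤ) * h1R + 4 * this +
      goldenRatio ^ (m : ℤ) * hCR
  have hfN : f N = C * goldenConj ^ (m : ℤ) := by
    rw [← n1, hN]; simp [hfV]
  have hfN' : f' N = C * goldenRatio ^ (m : ℤ) := by
    rw [← n2, hN]; simp [hfV']
  have star : (w ^ 2 + 1) * (p * q) < w * (p ^ 2 + q ^ 2) := by
    have a1 := psi_pow_lb m hm
    rw [← zpow_natCast] at a1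
    have a2 : (1 : ℝ) ≤ fib m := by exact_mod_cast hFm
    have a3 : (1 : ℝ) ≤ fib k := by exact_mod_cast hFk
    have a4 : (0 : ℝ) ≤ fib (k - 1) := by
      have : ((k : ℤ) - 1) = ((k - 1 : ℕ) : ℤ) := by omega
      rw [this, fib_natCast]; positivity
    have a5 : 3.2 * (fib k : ℝ) ≤ w := by
      rw [hw, zpow_phi]; nlinarith [phi_lb]
    have a6 : (g : ℝ) * (w * (p ^ 2 + q ^ 2) - (w ^ 2 + 1) * (p * q)) =
        w * (4 * fib k * goldenConj ^ (m : ℤ)) + (w ^ 2 - 1) * fib m := by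
      linear_combination g * w * n1 - w * goldenConj ^ (m : ℤ) * hCR + (w ^ 2 - 1) * h1R
    have a7 : -(0.8125 * w) ≤ 4 * fib k * goldenConj ^ (m : ℤ) := by nlinarith
    have a8 : (0 : ℝ) < g * (w * (p ^ 2 + q ^ 2) - (w ^ 2 + 1) * (p * q)) := by
      rw [a6]
      have b1 : w ^ 2 - 1 ≤ (w ^ 2 - 1) * fib m :=
        le_mul_of_one_le_right (by nlinarith) a2
      have b2 := mul_le_mul_of_nonneg_left a7 (show 0 ≤ w by linarith)
      nlinarith
    linarith [(pos_iff_pos_of_mul_pos a8).mp gR]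
  have P0 : w * q < p := by
    by_contra hcon
    push Not at hcon
    have : 0 ≤ w * p - q := by nlinarith
    nlinarith [mul_nonneg this (sub_nonneg.mpr hcon)]
  have inv0 : Inv C V N p q := by
    refine ⟨by simp, by simp, by simp, by simp, rfl, ?_⟩
    simpa using hc.map (Int.castRingHom R)
  have hN0 : 0 < |f N| := by
    rw [hfN]; exact abs_pos.mpr (mul_ne_zero CR.ne' (zpow_ne_zero _ goldenConj_ne_zero))
  obtain ⟨M, hM⟩ := pow_unbounded_of_one_lt (4 * (p : ℝ) ^ 2 / |f N|) (show (1 : ℝ) < 4 by norm_num)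
  obtain ⟨s, t, inv, hst⟩ := descent f (C := C) (V := V) (N := N) ⟨g, by rw [mul_comm]; exact hC⟩
    ⟨fib k, rfl⟩ w (by linarith) hfV M p q inv0 (by simpa using hq) (by simpa using P0)
    (by rw [div_lt_iff₀ hN0] at hM; simpa [mul_comm] using hM)
  obtain ⟨i1, i2, i3, i4, i5, i6⟩ := inv
  have m1 := congrArg f i5
  have m2 := congrArg f' i5
  simp only [map_add, map_sub, map_mul, map_pow, hfV, hfV', hfN, hfN'] at m1 m2
  have hd := det_small w w' C (goldenConj ^ (m : ℤ)) (goldenRatio ^ (m : ℤ)) (f s) (f t) (f' s)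
    (f' t) hw5 hww CR (zpow_pos goldenRatio_pos _) (by rw [mul_comm]; exact mul_sq m) m1 m2 hst
  have hD : (f s * f' t - f t * f' s) ^ 2 = 5 * ((s.re * t.im - s.im * t.re : ℤ) : ℝ) ^ 2 := by
    have : f s * f' t - f t * f' s =
        -(goldenRatio - goldenConj) * ((s.re * t.im - s.im * t.re : ℤ) : ℝ) := by
      simp only [hf, hf', ev_apply]; push_cast; ring
    rw [this, goldenRatio_sub_goldenConj, mul_pow, neg_sq, Real.sq_sqrt (by norm_num)]
  have hd0 : s.re * t.im = s.im * t.re := by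
    have a1 : C ∣ s.re * t.im - s.im * t.re := dvd_sub (i2.mul_left _) (i1.mul_right _)
    have a2 : (s.re * t.im - s.im * t.re) ^ 2 < C ^ 2 := by
      rw [hD] at hd
      have : ((s.re * t.im - s.im * t.re : ℤ) : ℝ) ^ 2 < (C : ℝ) ^ 2 := by linarith
      exact_mod_cast this
    have a3 := Int.eq_zero_of_abs_lt_dvd a1 (abs_lt_of_sq_lt_sq a2 hC0.le)
    linarith
  obtain ⟨p', q', x, y, hc', e1, e2, e3, e4⟩ := rank_one _ _ _ _ hd0
  have hs : s = (p' : R) * ⟨x, y⟩ := by ext <;> simp [e1, e2]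
  have ht : t = (q' : R) * ⟨x, y⟩ := by ext <;> simp [e3, e4]
  have hu : IsUnit (⟨x, y⟩ : R) :=
    i6.isUnit_of_dvd' ⟨p', by rw [hs, mul_comm]⟩ ⟨q', by rw [ht, mul_comm]⟩
  rw [QuadraticAlgebra.isUnit_iff_norm_isUnit, QuadraticAlgebra.norm_def, Int.isUnit_iff] at hu
  obtain ⟨i, e, he, hx, hy⟩ := unit_class _ x y le_rfl (by
    rcases hu with hu | hu
    · left; linear_combination hu
    · right; linear_combination hu)
  have he2 : e * e = 1 := by rcases he with rfl | rfl <;> rfl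
  have hy4 : 4 ∣ y := by
    obtain ⟨u, v, huv⟩ := hc'
    have := dvd_add (i3.mul_left u) (i4.mul_left v)
    refine dvd_of_eq this ?_
    rw [e2, e4]; linear_combination (-y) * huv
  have hi : Even i := by
    apply even_of_four_dvd
    refine dvd_of_eq (hy4.mul_left e) ?_
    rw [hy]; linear_combination (-fib i) * he2
  have hmu : f ⟨x, y⟩ = e * goldenRatio ^ i := by
    rw [hf, ev_apply, zpow_phi, hx, hy]; push_cast; ring
  have heR : (e : ℝ) * e = 1 := by exact_mod_cast he2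
  have hfs : f s = p' * (e * goldenRatio ^ i) := by rw [hs, map_mul, hmu]; simp
  have hft : f t = q' * (e * goldenRatio ^ i) := by rw [ht, map_mul, hmu]; simp
  have k1 : (p' : ℝ) ^ 2 - 2 * w * p' * q' + q' ^ 2 = C * goldenConj ^ (m + 2 * i) := by
    rw [zpow_add₀ goldenConj_ne_zero, two_mul i, zpow_add₀ goldenConj_ne_zero]
    rw [hfs, hft] at m1
    have := mul_sq i
    generalize goldenRatio ^ i = a at *
    generalize goldenConj ^ i = b at *
    linear_combination b ^ 2 * m1 -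
      ((p' : ℝ) ^ 2 - 2 * w * p' * q' + q' ^ 2) * (this + a ^ 2 * b ^ 2 * heR)
  have k2 : ((g * (p' ^ 2 + q' ^ 2) - 4 * fib (m + 2 * i + k) -
      4 * fib (k - 1) * (g * (p' * q') - fib (m + 2 * i)) : ℤ) : ℝ) =
      ((4 * fib k * (g * (p' * q') - fib (m + 2 * i)) : ℤ) : ℝ) * goldenRatio := by
    have b1 := binet (m + 2 * i) k
    have b2 := zpow_phi k
    rw [hw] at k1
    push_cast
    linear_combination g * k1 - 4 * b1 - goldenConj ^ (m + 2 * i) * hCR +
      4 * ((g : ℝ) * (p' * q') - fib (m + 2 * i)) * b2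
  have k3 := irr _ _ k2
  have k4 : g * (p' * q') = fib (m + 2 * i) := by
    rcases mul_eq_zero.mp k3 with h | h
    · omega
    · linarith
  have k5 : g * (p' ^ 2 + q' ^ 2) = 4 * fib (m + 2 * i + k) := by
    rw [k3, k4] at k2
    have : g * (p' ^ 2 + q' ^ 2) - 4 * fib (m + 2 * i + k) = 0 := by
      have h0 : ((g * (p' ^ 2 + q' ^ 2) - 4 * fib (m + 2 * i + k) : ℤ) : ℝ) = 0 := by
        simpa using k2
      exact_mod_cast h0
    linarith
  obtain ⟨j, rfl⟩ := hi
  by_cases hj : j = 0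
  · subst hj
    simp only [add_zero, mul_zero, zpow_zero, mul_one] at k4 k5 hfs hft
    have c1 : p' * q' = p * q := mul_left_cancel₀ hg.ne' (k4.trans h1.symm)
    have c2 : p' ^ 2 + q' ^ 2 = p ^ 2 + q ^ 2 := mul_left_cancel₀ hg.ne' (k5.trans h2.symm)
    have c1R : (p' : ℝ) * q' = p * q := by exact_mod_cast c1
    have c2R : (p' : ℝ) ^ 2 + q' ^ 2 = p ^ 2 + q ^ 2 := by exact_mod_cast c2
    have d1 : f s * f t = p * q := by
      rw [hfs, hft]; linear_combination c1R + (p' : ℝ) * q' * heR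
    have d2 : f s ^ 2 + f t ^ 2 = p ^ 2 + q ^ 2 := by
      rw [hfs, hft]; linear_combination c2R + ((p' : ℝ) ^ 2 + q' ^ 2) * heR
    rw [d1, d2] at hst
    have : (0 : ℝ) < p * q := mul_pos (by linarith) qR
    rcases hst with h | h
    · linarith
    · linarith [h.2]
  · exact cohn g k (m + 2 * (j + j)) m p' q' p q j (by ring) hj hc' hc k4 k5 h1 h2

theorem k_one (m : ℕ) (hm : 1 ≤ m) (g p q : ℤ) (hg : 0 < g) (hc : IsCoprime p q)
    (h1 : g * (p * q) = fib m) (h2 : g * (p ^ 2 + q ^ 2) = 4 * fib (m + 1)) : False := by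
  have hg4 : g ∣ 4 := by
    have a1 : g ∣ fib m := ⟨_, h1.symm⟩
    have a2 : g ∣ 4 * fib (m + 1) := ⟨_, h2.symm⟩
    exact ((coprime_succ m).of_isCoprime_of_dvd_left a1).dvd_of_dvd_mul_right a2
  have hle := Int.le_of_dvd (by norm_num) hg4
  have two : ¬ (2 ∣ p ∧ 2 ∣ q) := fun h => not_dvd_coprime Nat.prime_two hc h.1 h.2
  have per : ∀ j : ℕ, fib (6 * j) % 4 = 0 ∧ fib (6 * j + 1) % 4 = 1 := by
    intro j
    induction j with
    | zero => decide
    | succ j ih =>
      have a := fib_add (6 * j + 1) 5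
      have b := fib_add (6 * j + 1) 6
      rw [show (6 * j + 1 - 1 : ℤ) = 6 * j by ring] at a b
      have f5 : fib 5 = 5 := by decide
      have f6 : fib (5 + 1) = 8 := by decide
      have f6' : fib 6 = 8 := by decide
      have f7 : fib (6 + 1) = 13 := by decide
      rw [f5, f6] at a
      rw [f6', f7] at b
      push_cast
      rw [show (6 * (j + 1) : ℤ) = 6 * j + 1 + 5 by ring,
        show (6 * j + 1 + 5 + 1 : ℤ) = 6 * j + 1 + 6 by ring, a, b]
      omega
  obtain ⟨j, r, hr, hmj⟩ : ∃ j r : ℕ, r < 6 ∧ m = 6 * j + r :=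
    ⟨m / 6, m % 6, Nat.mod_lt _ (by norm_num), by omega⟩
  obtain ⟨p0, p1⟩ := per j
  have p2 := fib_add_two (6 * j)
  have p3 := fib_add_two (6 * j + 1)
  have p4 := fib_add_two (6 * j + 2)
  have p5 := fib_add_two (6 * j + 3)
  rw [show (6 * j + 1 + 2 : ℤ) = 6 * j + 3 by ring, show (6 * j + 1 + 1 : ℤ) = 6 * j + 2 by ring]
    at p3
  rw [show (6 * j + 2 + 2 : ℤ) = 6 * j + 4 by ring, show (6 * j + 2 + 1 : ℤ) = 6 * j + 3 by ring]
    at p4
  rw [show (6 * j + 3 + 2 : ℤ) = 6 * j + 5 by ring, show (6 * j + 3 + 1 : ℤ) = 6 * j + 4 by ring]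
    at p5
  have hmz : (m : ℤ) = 6 * j + r := by exact_mod_cast hmj
  interval_cases g
  · apply two
    rcases Int.even_or_odd' p with ⟨a, rfl | rfl⟩ <;> rcases Int.even_or_odd' q with ⟨b, rfl | rfl⟩
    · exact ⟨dvd_mul_right _ _, dvd_mul_right _ _⟩
    · exfalso
      have : 4 * (b ^ 2 + b + a ^ 2 - fib (m + 1)) + 1 = 0 := by linear_combination h2
      omega
    · exfalso
      have : 4 * (b ^ 2 + a + a ^ 2 - fib (m + 1)) + 1 = 0 := by linear_combination h2
      omega
    · exfalso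
      have : 4 * (b ^ 2 + b + a + a ^ 2 - fib (m + 1)) + 2 = 0 := by linear_combination h2
      omega
  · rcases Int.even_or_odd' p with ⟨a, rfl | rfl⟩ <;> rcases Int.even_or_odd' q with ⟨b, rfl | rfl⟩
    · exact two ⟨dvd_mul_right _ _, dvd_mul_right _ _⟩
    · have : 4 * (2 * b ^ 2 + 2 * b + 2 * a ^ 2 - fib (m + 1)) + 2 = 0 := by linear_combination h2
      omega
    · have : 4 * (2 * b ^ 2 + 2 * a + 2 * a ^ 2 - fib (m + 1)) + 2 = 0 := by linear_combination h2
      omega
    · obtain ⟨a', ha'⟩ := Int.even_mul_succ_self a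
      obtain ⟨b', hb'⟩ := Int.even_mul_succ_self b
      have c1 : fib (m + 1) = 4 * (a' + b') + 1 := by linarith
      have c2 : fib m = 4 * (2 * a * b + a + b) + 2 := by linear_combination -h1
      rw [hmz] at c1 c2
      interval_cases r <;> simp only [Nat.cast_ofNat, Nat.cast_zero, Nat.cast_one, add_zero] at c1 c2
      · omega
      · omega
      · omega
      · rw [show (6 * j + 3 + 1 : ℤ) = 6 * j + 4 by ring] at c1
        omega
      · omega
      · omega
  · omega
  · have hr0 : r = 0 := by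
      have c2 : fib m = 4 * (p * q) := h1.symm
      rw [hmz] at c2
      interval_cases r <;> simp only [Nat.cast_ofNat, Nat.cast_zero, Nat.cast_one, add_zero] at c2 <;>
        omega
    subst hr0
    rcases Nat.even_or_odd' j with ⟨a, rfl | rfl⟩
    · refine cohn 4 1 m 0 p q 1 0 (3 * a) (by rw [hmz]; push_cast; ring) (by omega) hc
        isCoprime_one_left h1 h2 (by decide) (by decide)
    · refine cohn 4 1 m (-6) p q 2 (-1) (3 * a + 3) (by rw [hmz]; push_cast; ring) (by omega) hc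
        ⟨0, -1, by norm_num⟩ h1 h2 (by decide) (by decide)

/-- `4 F_(m+k)^2 - F_m^2` is never the square of a rational number. -/
theorem no_rat (k m : ℕ) (hk : 1 ≤ k) (hm : 1 ≤ m) (y : ℚ) (hy0 : 0 ≤ y)
    (hy : y ^ 2 = 4 * (Nat.fib (m + k) : ℚ) ^ 2 - (Nat.fib m : ℚ) ^ 2) : False := by
  have hFm : (0 : ℚ) < Nat.fib m := by exact_mod_cast Nat.fib_pos.mpr hm
  have hle : (Nat.fib m : ℚ) ≤ Nat.fib (m + k) := by exact_mod_cast Nat.fib_mono (by omega)
  set T : ℚ := (2 * Nat.fib (m + k) + y) / Nat.fib m with hT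
  have hT1 : 1 ≤ T := by rw [hT, le_div_iff₀ hFm]; linarith
  have hq : (Nat.fib m : ℚ) * (T ^ 2 + 1) = 4 * Nat.fib (m + k) * T := by
    rw [hT]; field_simp; linear_combination hy
  have hc : IsCoprime T.num (T.den : ℤ) := by
    rw [Int.isCoprime_iff_gcd_eq_one]; exact T.reduced
  have hd : (0 : ℤ) < T.den := by exact_mod_cast T.den_pos
  have hdq : (0 : ℚ) < T.den := by exact_mod_cast T.den_pos
  have hnum : (T.num : ℚ) = T * T.den := by simp
  have hpq : (T.den : ℤ) ≤ T.num := by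
    have : (T.den : ℚ) ≤ T.num := by rw [hnum]; nlinarith
    exact_mod_cast this
  have e : fib m * (T.num ^ 2 + (T.den : ℤ) ^ 2) = 4 * fib (m + k) * (T.num * T.den) := by
    have : (Nat.fib m : ℚ) * ((T.num : ℚ) ^ 2 + (T.den : ℚ) ^ 2) =
        4 * Nat.fib (m + k) * (T.num * T.den) := by
      rw [hnum]; linear_combination (T.den : ℚ) ^ 2 * hq
    rw [← Nat.cast_add, fib_natCast, fib_natCast]
    exact_mod_cast this
  generalize T.num = p at *
  generalize (T.den : ℤ) = q at *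
  have hco : IsCoprime (p * q) (p ^ 2 + q ^ 2) := by
    refine IsCoprime.mul_left ?_ ?_
    · have := (hc.pow_right (n := 2)).add_mul_left_right p
      rwa [show q ^ 2 + p * p = p ^ 2 + q ^ 2 by ring] at this
    · have := (hc.symm.pow_right (n := 2)).add_mul_left_right q
      rwa [show p ^ 2 + q * q = p ^ 2 + q ^ 2 by ring] at this
  obtain ⟨g, hg⟩ : p * q ∣ fib m := hco.dvd_of_dvd_mul_right (e ▸ dvd_mul_left _ _)
  have hpq0 : 0 < p * q := mul_pos (by linarith) hd
  have hFz : (0 : ℤ) < fib m := by rw [fib_natCast]; exact_mod_cast Nat.fib_pos.mpr hm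
  have hg0 : 0 < g := by
    rw [hg] at hFz; exact (pos_iff_pos_of_mul_pos hFz).mp hpq0
  have h1 : g * (p * q) = fib m := by rw [hg]; ring
  have h2 : g * (p ^ 2 + q ^ 2) = 4 * fib (m + k) := by
    apply mul_left_cancel₀ hpq0.ne'
    rw [hg] at e
    linear_combination e
  rcases Nat.lt_or_ge k 2 with h | h
  · have : k = 1 := by omega
    subst this
    exact k_one m hm g p q hg0 hc h1 (by simpa using h2)
  · exact big_k k m h hm g p q hg0 hd hpq hc h1 h2

end Pool.Agent.Lib.MP_057a7b_nt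
end
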